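import Pool.Agent.H42.PF.Rev

/-!
# Power-free words over large alphabets extend to maximal power-free words

For every real `k` with `1 < k < 2` and every alphabet with at least `200 / (k - 1)` letters, every
`k`-power-free word is a factor of a `k`-power-free word to which no letter can be added at either
end; such a word is maximal.
-/

set_option autoImplicit false

namespace Pool.Agent.Results.MP_d3b2ba_co.LargeAlphabets

/-- `p` is a period of the word `u`. -/
def IsPeriod {α : Type*} (u : List α) (p : ℕ) : Prop :=
  0 < p ∧ ∀ i, i + p < u.length → u[i]? = u[i + p]?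

/-- The exponent of `u`: its length divided by its smallest period. -/
noncomputable def exponent {α : Type*} (u : List α) : ℝ :=
  (u.length : ℝ) / ((sInf {p : ℕ | IsPeriod u p} : ℕ) : ℝ)

/-- `w` is `k`-power-free: no nonempty factor of `w` has exponent at least `k`. -/
def IsPowerFree {α : Type*} (k : ℝ) (w : List α) : Prop :=
  ∀ u : List α, u ≠ [] → u <:+: w → ¬ k ≤ exponent u

/-- `w` is a maximal `k`-power-free word. -/
def IsMaximal {α : Type*} (k : ℝ) (w : List α) : Prop :=
  IsPowerFree k w ∧ ∀ a b : α, ¬ IsPowerFree k (a :: (w ++ [b]))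

section

variable {α : Type*}

lemma isPeriod_length {u : List α} (hu : u ≠ []) : IsPeriod u u.length := by
  refine ⟨List.length_pos_iff.mpr hu, fun i hi => ?_⟩
  omega

lemma sInf_period {u : List α} (hu : u ≠ []) : IsPeriod u (sInf {p : ℕ | IsPeriod u p}) :=
  Nat.sInf_mem (s := {p : ℕ | IsPeriod u p}) ⟨u.length, isPeriod_length hu⟩

variable [DecidableEq α]

lemma isPowerFree_iff {k : ℝ} (hk : 1 < k) (w : List α) :
    IsPowerFree k w ↔ H42PF.KF (k - 1) w := by
  have hκ : 0 < k - 1 := by linarith
  rw [H42PF.KF_iff hκ]
  constructor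
  · rintro h s p ⟨hp, hrun⟩
    have hpos := H42PF.hh_pos hκ hp
    set m := H42PF.hh (k-1) p with hm
    have htot : s + p + m ≤ w.length := by
      obtain ⟨c, _, g2⟩ := hrun (m - 1) (by omega)
      have := (List.getElem?_eq_some_iff.mp g2).1
      omega
    set u := (w.drop s).take (p + m) with hu
    have hlen : u.length = p + m := by
      rw [hu, List.length_take, List.length_drop]
      omega
    have hne : u ≠ [] := by
      intro h0
      rw [h0] at hlen
      simp at hlen
      omega
    have hget : ∀ i, i < p + m → u[i]? = w[s + i]? := by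
      intro i hi
      rw [hu, List.getElem?_take_of_lt hi, List.getElem?_drop]
    have hper : IsPeriod u p := by
      refine ⟨by omega, fun i hi => ?_⟩
      rw [hlen] at hi
      obtain ⟨c, g1, g2⟩ := hrun i (by omega)
      rw [hget i (by omega), hget (i+p) hi, g1]
      have : s + (i + p) = s + i + p := by omega
      rw [this, g2]
    apply h u hne ((List.take_prefix _ _).isInfix.trans (List.drop_suffix _ _).isInfix)
    have hmem := sInf_period hne
    have hle : sInf {q : ℕ | IsPeriod u q} ≤ p := Nat.sInf_le hper
    unfold exponent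
    have hpos' : (0:ℝ) < ((sInf {q : ℕ | IsPeriod u q} : ℕ) : ℝ) := by exact_mod_cast hmem.1
    rw [le_div_iff₀ hpos', hlen]
    have h1 := H42PF.le_hh (k-1) p
    have h2 : ((sInf {q : ℕ | IsPeriod u q} : ℕ) : ℝ) ≤ p := by exact_mod_cast hle
    have h3 : k * ((sInf {q : ℕ | IsPeriod u q} : ℕ) : ℝ) ≤ k * p :=
      mul_le_mul_of_nonneg_left h2 (by linarith)
    push_cast
    rw [← hm] at h1
    linarith
  · rintro h u hne ⟨x, y, hxy⟩ hexp
    have hmem := sInf_period hne
    set p := sInf {q : ℕ | IsPeriod u q} with hp
    have hpos' : (0:ℝ) < (p : ℝ) := by exact_mod_cast hmem.1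
    unfold exponent at hexp
    rw [← hp, le_div_iff₀ hpos'] at hexp
    have hple : p ≤ u.length := by
      have : (p:ℝ) ≤ u.length := by nlinarith
      exact_mod_cast this
    have hm : H42PF.hh (k-1) p ≤ u.length - p := by
      unfold H42PF.hh
      apply Nat.ceil_le.mpr
      rw [Nat.cast_sub hple]
      linarith
    apply h x.length p
    refine ⟨hmem.1, fun i hi => ?_⟩
    have hget : ∀ j, j < u.length → w[x.length + j]? = u[j]? := by
      intro j hj
      rw [← hxy, List.append_assoc, List.getElem?_append_right (by omega)]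
      have : x.length + j - x.length = j := by omega
      rw [this, List.getElem?_append_left hj]
    refine ⟨u[i]'(by omega), ?_, ?_⟩
    · rw [hget i (by omega)]
      exact List.getElem?_eq_getElem (by omega)
    · have e : x.length + i + p = x.length + (i + p) := by omega
      rw [e, hget (i+p) (by omega), ← hmem.2 i (by omega)]
      exact List.getElem?_eq_getElem (by omega)

end

/-- For `1 < k < 2` and an alphabet with at least `200 / (k - 1)` letters, every `k`-power-free
word `w` is a factor of a maximal `k`-power-free word `v`; moreover no letter can be added to `v` on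
the left, and none on the right. -/
theorem result (k : ℝ) (hk1 : 1 < k) (hk2 : k < 2) (α : Type) [Fintype α]
    (hα : 200 / (k - 1) ≤ (Fintype.card α : ℝ)) (w : List α) (hw : IsPowerFree k w) :
    ∃ v : List α, w <:+: v ∧ IsMaximal k v ∧
      (∀ a : α, ¬ IsPowerFree k (a :: v)) ∧ (∀ b : α, ¬ IsPowerFree k (v ++ [b])) := by
  classical
  have hκ : 0 < k - 1 := by linarith
  have hcard : 200 ≤ (k - 1) * Fintype.card α := by
    rw [div_le_iff₀ hκ] at hα
    linarith
  obtain ⟨x, y, h1, h2, h3⟩ := H42PF.two_sided hκ
    (fun w hw => H42PF.left_ext hκ (by linarith) hcard w hw) w ((isPowerFree_iff hk1 w).mp hw)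
  refine ⟨x ++ w ++ y, ⟨x, y, rfl⟩, ⟨(isPowerFree_iff hk1 _).mpr h1, ?_⟩, ?_, ?_⟩
  · intro a b h
    rw [isPowerFree_iff hk1, ← List.cons_append] at h
    exact h2 a (H42PF.KF_prefix hκ h)
  · intro a h
    exact h2 a ((isPowerFree_iff hk1 _).mp h)
  · intro b h
    exact h3 b ((isPowerFree_iff hk1 _).mp h)

end Pool.Agent.Results.MP_d3b2ba_co.LargeAlphabets
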